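import Pool.Agent.Lib_helper33.ASM.TStmts

/-!
# T6: if all points are matched, there are good models
-/

set_option autoImplicit false

open scoped BigOperators ENNReal
open MeasureTheory Filter Topology

namespace Pool.Agent.Lib_helper33.ASM

namespace T6

lemma cnt_eq_ncard {ι : Type*} [Fintype ι] (A : ι → Prop) :
    cnt A = (Set.ncard {s | A s} : ℝ) := by
  classical
  unfold cnt
  have e : {s | A s} = ((Finset.univ.filter A : Finset ι) : Set ι) := by
    ext s; simp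
  rw [e, Set.ncard_coe_finset]

/-- the conditions at one cube and one time -/
lemma exists_common {J : Type*} (S : Finset J) (Q : J → ℕ → ℕ → Prop)
    (h : ∀ j ∈ S, ∃ N : ℕ, ∀ n, N ≤ n → ∃ K : ℕ, ∀ k, K ≤ k → Q j n k) :
    ∃ N : ℕ, ∀ n, N ≤ n → ∃ K : ℕ, ∀ k, K ≤ k → ∀ j ∈ S, Q j n k := by
  classical
  induction S using Finset.induction_on with
  | empty => exact ⟨0, fun n _ => ⟨0, fun k _ j hj => absurd hj (by simp)⟩⟩
  | insert a S ha ih =>
    obtain ⟨N1, h1⟩ := ih (fun j hj => h j (Finset.mem_insert_of_mem hj))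
    obtain ⟨N2, h2⟩ := h a (Finset.mem_insert_self _ _)
    refine ⟨max N1 N2, fun n hn => ?_⟩
    obtain ⟨K1, h3⟩ := h1 n (le_trans (le_max_left _ _) hn)
    obtain ⟨K2, h4⟩ := h2 n (le_trans (le_max_right _ _) hn)
    refine ⟨max K1 K2, fun k hk j hj => ?_⟩
    rcases Finset.mem_insert.1 hj with rfl | hj
    · exact h4 k (le_trans (le_max_right _ _) hk)
    · exact h3 k (le_trans (le_max_left _ _) hk) j hj

end T6

open T6 in
theorem stmtT6 (h4 : StmtT4b) (h5 : StmtT5) : StmtT6 := by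
  intro d p hd hp0 hp1 Ω _ P _ X c hX hall I n₀ a₀ ha₀
  obtain ⟨R, B, hR, hBR, hlim⟩ := h5 d p hd hp0 hp1 Ω P X c hX hall
  classical
  -- positions
  have hy : ∃ y : (n k : ℕ) → (Fin d → Fin (2 * n * k)) → Sp d,
      ∀ n k, 0 < n → 0 < k → Gen (y n k) ∧ ∀ s, y n k s ∈ cell n k s := by
    refine ⟨fun n k => if h : 0 < n ∧ 0 < k then (h4 d hd n k h.1 h.2).1.choose else fun _ => 0,
      fun n k hn hk => ?_⟩
    have h : 0 < n ∧ 0 < k := ⟨hn, hk⟩
    simp only [dif_pos h]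
    exact (h4 d hd n k hn hk).1.choose_spec
  obtain ⟨y, hy⟩ := hy
  have hlim' := hlim y hy
  -- common choice of n and k
  set S : Finset ((Fin d → ℤ) × ℕ) :=
    (Fintype.piFinset fun _ : Fin d => Finset.Icc (-(n₀ : ℤ)) n₀) ×ˢ Finset.range (I + 1) with hS
  obtain ⟨N, hN⟩ := exists_common S (fun q n k =>
      |ex ((1 / k : ℝ) ^ d * Real.exp (-(1 / k : ℝ) ^ d)) p
        (fun ω => uc (y n k) ω true q.1 ((2 ^ q.2 : ℕ) : ℝ)) - R (2 ^ q.2)| < R (2 ^ q.2) / 10 ∧
      |ex ((1 / k : ℝ) ^ d * Real.exp (-(1 / k : ℝ) ^ d)) p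
        (fun ω => uc (y n k) ω false q.1 ((2 ^ q.2 : ℕ) : ℝ)) - B (2 ^ q.2)| < R (2 ^ q.2) / 10)
    (fun q _ => hlim' q.1 (2 ^ q.2) (R (2 ^ q.2) / 10) (by have := hR (2 ^ q.2); positivity))
  set n : ℕ := max N (n₀ + 1) with hn
  obtain ⟨K, hK⟩ := hN n (le_max_left _ _)
  set k : ℕ := max K (max 2 (⌈1 / a₀⌉₊ + 1)) with hk
  have hnpos : 0 < n := lt_of_lt_of_le (Nat.succ_pos n₀) (le_max_right _ _)
  have hk2 : 2 ≤ k := le_trans (le_max_left _ _) (le_max_right _ _)
  have hkpos : 0 < k := by omega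
  have hk' : (0 : ℝ) < k := by exact_mod_cast hkpos
  have hkK : K ≤ k := le_max_left _ _
  have hka : 1 / a₀ ≤ (k : ℝ) := by
    have h1 : ⌈1 / a₀⌉₊ + 1 ≤ k := le_trans (le_max_right _ _) (le_max_right _ _)
    have h2 := Nat.le_ceil (1 / a₀)
    have h3 : ((⌈1 / a₀⌉₊ + 1 : ℕ) : ℝ) ≤ k := by exact_mod_cast h1
    push_cast at h3
    linarith
  have hx : (1 / (k : ℝ)) ≤ 1 / 2 := by
    apply one_div_le_one_div_of_le (by norm_num)
    exact_mod_cast hk2
  have hxa : (1 / (k : ℝ)) ≤ a₀ := by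
    rw [div_le_iff₀ hk']
    rw [div_le_iff₀ ha₀] at hka
    linarith
  have hxpos : (0 : ℝ) < 1 / k := by positivity
  have hxd : (1 / (k : ℝ)) ^ d ≤ 1 / k := by
    calc (1 / (k : ℝ)) ^ d ≤ (1 / (k : ℝ)) ^ 1 :=
          pow_le_pow_of_le_one hxpos.le (by linarith) hd
      _ = 1 / k := pow_one _
  have hxdpos : (0 : ℝ) < (1 / (k : ℝ)) ^ d := by positivity
  have hexp1 : Real.exp (-(1 / (k : ℝ)) ^ d) ≤ 1 := Real.exp_le_one_iff.2 (by linarith)
  have hexp2 : 1 / 2 ≤ Real.exp (-(1 / (k : ℝ)) ^ d) := by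
    have := Real.add_one_le_exp (-(1 / (k : ℝ)) ^ d)
    linarith
  set a : ℝ := (1 / (k : ℝ)) ^ d * Real.exp (-(1 / (k : ℝ)) ^ d) with ha
  have hapos : 0 < a := by rw [ha]; positivity
  have hale : a ≤ 1 / k := by
    calc a ≤ (1 / (k : ℝ)) ^ d * 1 := mul_le_mul_of_nonneg_left hexp1 hxdpos.le
      _ ≤ 1 / k := by rw [mul_one]; exact hxd
  obtain ⟨h41, h42, h43, h44, h45, h46⟩ := h4 d hd n k hnpos hkpos
  obtain ⟨hgen, hcell⟩ := hy n k hnpos hkpos
  have hbox : ∀ (s : Fin d → Fin (2 * n * k)) (i : Fin d),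
      -(n : ℤ) ≤ cb (y n k s) i ∧ cb (y n k s) i < n := by
    intro s i
    have h := h46 s _ (hcell s) i
    unfold cb
    constructor
    · rw [Int.le_floor]
      push_cast
      exact h.1
    · rw [Int.floor_lt]
      push_cast
      exact h.2
  have hcnt : ∀ j : Fin d → ℤ, (∀ i, -(n : ℤ) ≤ j i ∧ j i < n) →
      (cnt fun s => cb (y n k s) = j) = (k : ℝ) ^ d := by
    intro j hj
    rw [cnt_eq_ncard]
    have e : {s : Fin d → Fin (2 * n * k) | cb (y n k s) = j} =
        {s : Fin d → Fin (2 * n * k) | ∃ z ∈ cell n k s, cb z = j} := by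
      ext s
      constructor
      · intro h
        exact ⟨_, hcell s, h⟩
      · rintro ⟨z, hz, h⟩
        have h2 : cb (y n k s) = cb z := h45 s _ (hcell s) z hz
        exact h2.trans h
    rw [e, h44 j hj]
    push_cast
    rfl
  have hak : a * (k : ℝ) ^ d = Real.exp (-(1 / (k : ℝ)) ^ d) := by
    rw [ha, one_div, inv_pow]
    field_simp
  let 𝓜 : Model d := { ι := Fin d → Fin (2 * n * k), x := y n k, gen := hgen, a := a, n := n }
  have hER : ∀ (b : Bool) (j : Fin d → ℤ) (i : ℕ),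
      ex a p (fun ω => cnt fun s => cb (y n k s) = j ∧ ω s = some b ∧
        Un (y n k) ω ((2 : ℝ) ^ i) s) =
      ex a p (fun ω => uc (y n k) ω b j ((2 ^ i : ℕ) : ℝ)) := by
    intro b j i
    congr 1
    funext ω
    rw [cnt_eq_ncard]
    unfold uc
    push_cast
    rfl
  have hmem : ∀ (j : Fin d → ℤ) (i : ℕ), i ≤ I → (∀ l, |j l| ≤ (n₀ : ℤ)) → (j, i) ∈ S := by
    intro j i hi hj
    rw [hS, Finset.mem_product]
    refine ⟨?_, Finset.mem_range.2 (by omega)⟩
    rw [Fintype.mem_piFinset]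
    intro l
    rw [Finset.mem_Icc]
    exact abs_le.1 (hj l)
  refine ⟨𝓜, ?_⟩
  refine
    { n_le := ?_
      a_pos := hapos
      a_le := hale.trans hxa
      a_half := hale.trans hx
      box := hbox
      dens_lo := ?_
      dens_hi := ?_
      shift := ?_
      blue := ?_ }
  · have : n₀ + 1 ≤ n := le_max_right _ _
    change n₀ ≤ n
    omega
  · intro j hj
    change 1 / 2 ≤ a * cnt fun s => cb (y n k s) = j
    rw [hcnt j hj, hak]
    exact hexp2
  · intro j
    change a * (cnt fun s => cb (y n k s) = j) ≤ 1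
    by_cases hj : ∀ i, -(n : ℤ) ≤ j i ∧ j i < n
    · rw [hcnt j hj, hak]
      exact hexp1
    · have h0 : (cnt fun s => cb (y n k s) = j) = 0 := by
        rw [cnt_eq_ncard]
        have e : {s : Fin d → Fin (2 * n * k) | cb (y n k s) = j} = ∅ := by
          rw [Set.eq_empty_iff_forall_notMem]
          intro s hs
          apply hj
          intro i
          have h : cb (y n k s) = j := hs
          rw [← h]
          exact hbox s i
        rw [e, Set.ncard_empty, Nat.cast_zero]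
      rw [h0, mul_zero]
      exact zero_le_one
  · intro i hi j j' hj hj'
    change ex a p (fun ω => cnt fun s => cb (y n k s) = j ∧ ω s = some true ∧
        Un (y n k) ω ((2 : ℝ) ^ i) s) ≤ 2 * ex a p (fun ω => cnt fun s => cb (y n k s) = j' ∧
          ω s = some true ∧ Un (y n k) ω ((2 : ℝ) ^ i) s)
    rw [hER, hER]
    have h1 := (hK k hkK _ (hmem j i hi hj)).1
    have h2 := (hK k hkK _ (hmem j' i hi hj')).1
    simp only at h1 h2
    have h3 := hR (2 ^ i)
    rw [abs_lt] at h1 h2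
    linarith [h1.1, h1.2, h2.1, h2.2]
  · intro i hi j hj
    change ex a p (fun ω => cnt fun s => cb (y n k s) = j ∧ ω s = some false ∧
        Un (y n k) ω ((2 : ℝ) ^ i) s) ≤ 2 * ex a p (fun ω => cnt fun s => cb (y n k s) = j ∧
          ω s = some true ∧ Un (y n k) ω ((2 : ℝ) ^ i) s)
    rw [hER, hER]
    have h1 := (hK k hkK _ (hmem j i hi hj)).1
    have h2 := (hK k hkK _ (hmem j i hi hj)).2
    simp only at h1 h2
    have h3 := hR (2 ^ i)
    have h4 := hBR (2 ^ i)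
    rw [abs_lt] at h1 h2
    linarith [h1.1, h1.2, h2.1, h2.2]

end Pool.Agent.Lib_helper33.ASM
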